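import Pool.Agent.Lib.MP_411a76_lc.NotSigma

set_option autoImplicit false
open FirstOrder Pool.Agent.Lib.MP_411a76_lc

/-- The set `T` of Goedel numbers of the sentences of the language of lattices that hold in the
lattice of l-ideals of every lattice-ordered group is not of the form
`{k | ∃ f, ∀ i, R k (f (i + 1)) (f i)}` with `R` recursively enumerable. With `R k a b := k ∈ T`
this says that `T` is not recursively enumerable, hence not computable. -/
theorem Pool.Agent.Results.MP_411a76_lc.NotSigma11.result (R : ℕ → ℕ → ℕ → Prop)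
    (hR : REPred fun p : ℕ × ℕ × ℕ => R p.1 p.2.1 p.2.2) :
    ¬ ∀ k : ℕ, (∃ σ : latLang.Sentence,
      Encodable.encode (Language.BoundedFormula.listEncode σ) = k ∧
      ∀ (G : Type) [Group G] [Lattice G] [MulLeftMono G] [MulRightMono G],
        @Language.Sentence.Realize latLang {N : Subgroup G // IsLIdeal N} (idealLattice G) σ) ↔
      ∃ f : ℕ → ℕ, ∀ i, R k (f (i + 1)) (f i) :=
  not_sigma _ (fun _ h G i j _ _ => @h G i j) (fun _ h => h G0) R hR
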